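import Pool.Agent.H354.BG.Stm

set_option autoImplicit false

/-! Project BG (helper354), task ALL (helper34): the induction over the set of blocks. -/

namespace Pool.Agent.H34.BG.ALL

open Pool.Agent.H354.BG
open Pool.Agent.H482R3.EA (W)

/-- a predicate which is always true is decidable -/
lemma cp_true {α : Type} [Primcodable α] {p : α → Prop} (h : ∀ a, p a) : ComputablePred p := by
  refine ⟨fun a => isTrue (h a), ?_⟩
  exact (Computable.const true).of_eq fun _ => rfl

/-- a predicate which is always false is decidable -/
lemma cp_false {α : Type} [Primcodable α] {p : α → Prop} (h : ∀ a, ¬ p a) :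
    ComputablePred p := by
  refine ⟨fun a => isFalse (h a), ?_⟩
  exact (Computable.const false).of_eq fun _ => rfl

/-- a block without generators does not change the retraction -/
lemma rho_insert_empty (D : Dat) (U : Finset (Fin D.r)) (b : Fin D.r)
    (hb : ¬ ∃ v, D.β v = b) (g : D.A) : rho D (insert b U) g = rho D U g := by
  obtain ⟨u, rfl⟩ := gEl_surj D g
  rw [rho_gEl, rho_gEl]
  have h : flt D (insert b U) u = flt D U u := by
    unfold flt
    apply List.filter_congr
    intro a _
    have h1 : (D.β a.1 ∈ insert b U) ↔ (D.β a.1 ∈ U) := by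
      rw [Finset.mem_insert]
      exact ⟨fun h2 => h2.resolve_left fun h3 => hb ⟨_, h3⟩, Or.inr⟩
    exact decide_eq_decide.mpr h1
  rw [h]

/-- recognition problems over a block without generators are trivial -/
lemma rok_empty (D : Dat) (U : Finset (Fin D.r)) (b : Fin D.r)
    (hb : ¬ ∃ v, D.β v = b) : Rok D U b :=
  ⟨cp_false fun _ hp => hb ⟨_, hp.1⟩, cp_false fun _ hp => hb ⟨_, hp.1⟩,
    cp_false fun _ hp => hb ⟨_, hp.1⟩⟩

/-- the word problem of the trivial group -/
lemma wpu_empty (D : Dat) : WPU D ∅ := cp_true fun u => rho_empty D (gEl D u)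

/-- the word problem does not see blocks without generators -/
lemma wpu_insert_empty (D : Dat) (U : Finset (Fin D.r)) (b : Fin D.r)
    (hb : ¬ ∃ v, D.β v = b) (h : WPU D U) : WPU D (insert b U) := by
  have h1 : (fun u : W (Fin D.n) => rho D (insert b U) (gEl D u) = 1) =
      fun u : W (Fin D.n) => rho D U (gEl D u) = 1 := by
    funext u
    rw [rho_insert_empty D U b hb]
  unfold WPU
  rw [h1]
  exact h

/-- **BG-ALL.** Strong induction on the number of blocks: the word problem of `A_U` and all
recognition problems over `U` are decidable, if all blocks have decidable word problem. -/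
theorem t_ALL (hsys : S_SYSALL) (hns : S_NS) (hstep : S_STEPW) (h12 : S_R12) (h3 : S_R3) :
    S_ALL := by
  intro D hD U
  induction hn : U.card using Nat.strong_induction_on generalizing U with
  | _ n ih =>
    subst hn
    -- the geometry of `(U', b)` needs only smaller sets
    have hall : ∀ (U' : Finset (Fin D.r)) (b : Fin D.r), U' ⊆ U → Rall D U' b := by
      intro U' b hU' c hc hR
      have hsub : pZ D U' b ⊆ U' := pZ_sub D U' b
      have hc' : c ∉ pZ D U' b := fun h => by
        have h2 := ((mem_pZ D U' b).mp h).2.2
        rw [hR] at h2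
        exact Bool.noConfusion h2
      have hlt : (pZ D U' b).card < U.card :=
        lt_of_lt_of_le (Finset.card_lt_card ⟨hsub, fun h => hc' (h hc)⟩)
          (Finset.card_le_card hU')
      exact (ih _ hlt _ rfl).2 c hc'
    have hWP : WPU D U := by
      rcases U.eq_empty_or_nonempty with hU | ⟨b, hb⟩
      · rw [hU]; exact wpu_empty D
      · have hins : insert b (U.erase b) = U := Finset.insert_erase hb
        have hlt : (U.erase b).card < U.card := Finset.card_erase_lt_of_mem hb
        have hW' : WPU D (U.erase b) := (ih _ hlt _ rfl).1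
        rw [← hins]
        by_cases hv : ∃ v, D.β v = b
        · exact hstep D (U.erase b) b (Finset.notMem_erase b U)
            (hsys D (U.erase b) b (Finset.notMem_erase b U) hv) hW' (hD b)
            (hall (U.erase b) b (Finset.erase_subset b U))
        · exact wpu_insert_empty D (U.erase b) b hv hW'
    refine ⟨hWP, fun b hb => ?_⟩
    by_cases hv : ∃ v, D.β v = b
    · have hs : SysOK D U b := hsys D U b hb hv
      have hr : Rall D U b := hall U b (Finset.Subset.refl U)
      have hW : WPU D (insert b U) := hstep D U b hb hs hWP (hD b) hr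
      obtain ⟨h1, h2⟩ := h12 D U b hb hs hWP (hD b) hr hW
      exact ⟨h1, h2, h3 D U b hb (hns D U b hb hs) hWP hW h2⟩
    · exact rok_empty D U b hv

end Pool.Agent.H34.BG.ALL
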